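import Mathlib
import Pool.Agent.TH905.HS.Fin6

/-!
Hyperelliptic curves of genus `g ≥ 2` over a number field all of whose Weierstrass points are
rational: `y² = d ∏ (X - e_i)` with `2 g + 1` different roots `e_0 = 0, e_1, ..., e_{2g}` (one
Weierstrass point is at infinity and one root is moved to `0`); multiplying all roots by a common
factor only changes the quadratic twist `d`, so the roots are a point of `P^{2g-1}(K)`, the
configuration (a `K`-point of the moduli space `M_{0,2g+2}`).

For every `κ > 4 g + 4` the inequality `Δ_C ≤ c M_C ^ κ` holds for all quadratic twists `d` at once,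
for all configurations outside a set whose counting function is smaller by a power than the number
of all configurations. The bound `4 g + 4` is best possible: for every `κ < 4 g + 4` the
configurations for which the inequality holds for all quadratic twists form such a small set.
-/

set_option autoImplicit false

open NumberField Height Finset LinearAlgebra.Projectivization Polynomial
open Pool.Agent.W318 (discNorm badNorm)

namespace Pool.Agent.Results.MP_ca2859_nt.RationalWeierstrassPoints

/-- the roots `0, x_0, ..., x_n` -/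
def roots {K : Type} [Field K] {n : ℕ} (x : Fin (n + 1) → K) : Fin (n + 2) → K := Fin.cons 0 x

/-- the right hand side of `y² = d ∏ (X - e_i)`, the `e_i` being the roots -/
noncomputable def curve {K : Type} [Field K] {n : ℕ} (d : K) (x : Fin (n + 1) → K) : K[X] :=
  C d * ∏ i, (X - C (roots x i))

/-- the absolute logarithmic height of a point of projective space -/
noncomputable def height {K : Type} [Field K] [NumberField K] {n : ℕ}
    (P : ℙ K (Fin (n + 1) → K)) : ℝ := Real.log P.mulHeight / Module.finrank ℚ K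

/-- the configurations of height at most `log B` with different roots for which the inequality
`Δ_C ≤ c M_C ^ κ` fails for some quadratic twist -/
def exceptional (K : Type) [Field K] [NumberField K] (g n : ℕ) (κ c B : ℝ) :
    Set (ℙ K (Fin (n + 1) → K)) :=
  {P | Function.Injective (roots P.rep) ∧ height P ≤ Real.log B ∧
    ∃ d : K, d ≠ 0 ∧ c * (badNorm g (curve d P.rep) : ℝ) ^ κ < discNorm g (curve d P.rep)}

/-- the configurations of height at most `log B` with different roots for which the inequality
`Δ_C ≤ c M_C ^ κ` holds for all quadratic twists -/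
def uniform (K : Type) [Field K] [NumberField K] (g n : ℕ) (κ c B : ℝ) :
    Set (ℙ K (Fin (n + 1) → K)) :=
  {P | Function.Injective (roots P.rep) ∧ height P ≤ Real.log B ∧
    ∀ d : K, d ≠ 0 → (discNorm g (curve d P.rep) : ℝ) ≤
      c * (badNorm g (curve d P.rep) : ℝ) ^ κ}

/-- the exponent above `4 g + 4` -/
noncomputable def expo (g : ℕ) (κ : ℝ) : ℝ :=
  min (max (2 * g - 1 / 2) (4 * g / (κ - 4 * g - 2)))
    (min (2 * g * (2 * g + 1) / (κ - 4 * g - 2)) (1 + 2 * g * (2 * g - 1) / (κ - 4 * g - 2)))

/-- the exponent below `4 g + 4` -/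
noncomputable def expoBelow (g : ℕ) (κ : ℝ) : ℝ :=
  max (2 * g - 1 / 2) (4 * g / (2 + (2 * g + 1) * (1 - κ / (4 * g + 4))))

theorem result (K : Type) [Field K] [NumberField K] (g n : ℕ) (hg : 2 ≤ g) (hn : n + 1 = 2 * g)
    (κ : ℝ) :
    (4 * g + 4 < κ → expo g κ < 2 * g ∧ ∀ c δ : ℝ, 0 < c → 0 < δ → ∃ M : ℝ, ∀ B : ℝ, 1 ≤ B →
      (exceptional K g n κ c B).Finite ∧
      ((exceptional K g n κ c B).ncard : ℝ) ≤ M * B ^ (Module.finrank ℚ K * expo g κ + δ)) ∧
    (0 ≤ κ → κ < 4 * g + 4 → expoBelow g κ < 2 * g ∧ ∀ c δ : ℝ, 0 < c → 0 < δ →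
      ∃ M : ℝ, ∀ B : ℝ, 1 ≤ B → (uniform K g n κ c B).Finite ∧
        ((uniform K g n κ c B).ncard : ℝ) ≤ M * B ^ (Module.finrank ℚ K * expoBelow g κ + δ)) :=
  ⟨fun hκ => ⟨Pool.Agent.TH905.HS.expoS_lt hg hκ, fun c δ hc hδ =>
    Pool.Agent.TH905.HS.viol_count K hg hn κ hκ c δ hc hδ⟩,
   fun hκ0 hκ => ⟨Pool.Agent.TH905.HS.expoT_lt hg hκ, fun c δ hc hδ =>
    Pool.Agent.TH905.HS.pers_count K hg hn κ hκ0 hκ c δ hc hδ⟩⟩

end Pool.Agent.Results.MP_ca2859_nt.RationalWeierstrassPoints
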