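import Pool.Agent.TH919.HS.Ell3
import Pool.Agent.TH919.HS.Gen7

/-! The (weak) Szpiro-type discriminant bound for hyperelliptic curves and the (weak) `abc` bound:
the uniform forms are equivalent for all genera, elliptic curves included, and over a fixed number
field the bound in one genus implies `abc`, hence the bound in all genera for the curves with
rational Weierstrass points; in one genus `g ≥ 3` it implies the bound for all elliptic curves
over the same field. -/

namespace Pool.Agent.Results.MP_ca2859_nt.SzpiroGenusFree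

open Pool.Agent.W318 Pool.Agent.TH919.HS

/-- * The uniform Szpiro-type bound for hyperelliptic curves of genus `g`, for any single
  `g ≥ 2`, is equivalent to the uniform Szpiro bound for elliptic curves, and to the uniform
  `abc` bound; so the uniform bounds in any two genera are equivalent, and any one of them gives
  the bound of Q1 for every genus `g ≥ 2` over every number field.
* Over a fixed number field `K`: the bound of Q1 in one genus `g ≥ 3` implies the Szpiro bound
  for all elliptic curves over the same field `K`.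
* Over a fixed number field `K`: the bound of Q1 in one genus `g ≥ 2` (or for elliptic curves)
  implies the `abc` bound over `K`; over `ℚ` this is the classical weak `abc` conjecture.
* For an extension `L` of `K`: the bound of Q1 over `L` in one genus `g ≥ 2` (or for elliptic
  curves) implies the bound of Q1 in every genus for the curves over `K` all of whose Weierstrass
  points are defined over `L`. -/
theorem result :
    (∀ g : ℕ, 2 ≤ g → (UniformSzpiro g ↔ UniformSzpiroEll)) ∧
    (∀ g g' : ℕ, 2 ≤ g → 2 ≤ g' → (UniformSzpiro g ↔ UniformSzpiro g')) ∧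
    (UniformSzpiroEll ↔ UniformABC) ∧
    (UniformSzpiroEll → ∀ g : ℕ, 2 ≤ g → ∀ (K : Type) [Field K] [NumberField K],
      SzpiroOver K g) ∧
    (∀ (K : Type) [Field K] [NumberField K] (g : ℕ), 3 ≤ g →
      SzpiroOver K g → SzpiroEllOver K) ∧
    (∀ (K : Type) [Field K] [NumberField K],
      ((∃ g : ℕ, 2 ≤ g ∧ SzpiroOver K g) ∨ SzpiroEllOver K) → ABCOver K) ∧
    (((∃ g : ℕ, 2 ≤ g ∧ SzpiroOver ℚ g) ∨ SzpiroEllOver ℚ) → WeakABC) ∧
    (∀ (K L : Type) [Field K] [NumberField K] [Field L] [NumberField L] [Algebra K L],
      ((∃ g : ℕ, 2 ≤ g ∧ SzpiroOver L g) ∨ SzpiroEllOver L ∨ ABCOver L) →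
        (∀ g : ℕ, 2 ≤ g → SplitSzpiroOver K L g) ∧ SplitSzpiroEllOver K L) := by
  have key : ∀ (K : Type) [Field K] [NumberField K],
      ((∃ g : ℕ, 2 ≤ g ∧ SzpiroOver K g) ∨ SzpiroEllOver K) → ABCOver K := by
    intro K _ _ h
    rcases h with ⟨g, hg, h⟩ | h
    · exact abcOver_of_szpiroOver hg h
    · exact abcOver_of_szpiroEll h
  refine ⟨fun g hg => ⟨fun h => szpiroEll_of_abc (abc_of_szpiro hg h),
      fun h => szpiro_of_abc (abc_of_szpiroEll h) hg⟩,
    fun g g' hg hg' => ⟨fun h => szpiro_of_abc (abc_of_szpiro hg h) hg',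
      fun h => szpiro_of_abc (abc_of_szpiro hg' h) hg⟩,
    ⟨abc_of_szpiroEll, szpiroEll_of_abc⟩,
    fun h g hg K _ _ => szpiroOver_of_uniform (szpiro_of_abc (abc_of_szpiroEll h) hg),
    fun K _ _ g hg h => ell_of_szp3 hg h, key, fun h => weakABC_of_abcOver (key ℚ h), ?_⟩
  intro K L _ _ _ _ _ h
  have h' : ABCOver L := by
    rcases h with h | h | h
    · exact key L (Or.inl h)
    · exact key L (Or.inr h)
    · exact h
  exact ⟨fun g hg => split_of_abcOver h' hg, splitEll_of_abcOver h'⟩

end Pool.Agent.Results.MP_ca2859_nt.SzpiroGenusFree
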