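import Pool.Agent.TH4.HS.Main3
import Pool.Agent.TH4.HS.Sharp2

/-!
# MP_ca2859_nt: Szpiro's inequality in the pencils `y² = f(x) + t`, uniformly in `f`

`IsHyp`, `minExp`, `discNorm`, `badNorm` are the definitions of `Pool/Agent/W318/SzpDefs.lean`
(curves `y² = F(x)` of genus `g`, exponents of the minimal discriminant, `Δ_C` and `M_C`).
-/

namespace Pool.Agent.Results.MP_ca2859_nt.UniformPencils

open Polynomial Pool.Agent.W318

/-- The integers `t` with `|t| ≤ B ^ n` for which `y² = f(x) + t` is not a curve `C` of genus `g`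
over `ℚ` with `Δ_C ≤ c M_C ^ κ`. -/
def Exceptions (g n : ℕ) (c κ B : ℝ) (f : ℤ[X]) : Set ℤ :=
  {t : ℤ | |(t : ℝ)| ≤ B ^ n ∧
    ¬ (IsHyp g ((f + C t).map (Int.castRingHom ℚ)) ∧
      (discNorm g ((f + C t).map (Int.castRingHom ℚ)) : ℝ) ≤
        c * (badNorm g ((f + C t).map (Int.castRingHom ℚ)) : ℝ) ^ κ)}

/-- Let `g ≥ 2`, `n = 2 g + 1` or `2 g + 2` and `c > 0`.
(1) Let `κ > n - 1` and `δ < (2 g / (2 g + 1)) (1 - (n - 1) / κ)`. There is `K` such that for all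
real `B ≥ 1` and all monic `f` in `ℤ[x]` of degree `n` whose coefficient of `x ^ i` is at most
`B ^ (n - i)` in absolute value, there are at most `K B ^ (n (1 - δ))` exceptions.
(2) Let `κ < n - 1`. For `f = x ^ n` and all large `B` there are at least `B ^ n / 8` exceptions. -/
theorem result (g n : ℕ) (hg : 2 ≤ g) (hn : n = 2 * g + 1 ∨ n = 2 * g + 2) (κ c : ℝ)
    (hc : 0 < c) :
    ((n : ℝ) - 1 < κ → ∀ δ : ℝ, δ < 2 * (g : ℝ) / (2 * g + 1) * (1 - ((n : ℝ) - 1) / κ) →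
      ∃ K : ℝ, ∀ B : ℝ, 1 ≤ B → ∀ f : ℤ[X], f.Monic → f.natDegree = n →
        (∀ i, i < n → |((f.coeff i : ℤ) : ℝ)| ≤ B ^ (n - i)) →
          ((Exceptions g n c κ B f).ncard : ℝ) ≤ K * B ^ ((n : ℝ) * (1 - δ))) ∧
    (κ < (n : ℝ) - 1 → ∃ B₀ : ℝ, ∀ B : ℝ, B₀ ≤ B →
      B ^ n / 8 ≤ ((Exceptions g n c κ B (X ^ n)).ncard : ℝ)) :=
  ⟨fun hκ δ hδκ => Pool.Agent.TH4.HS.uniform3 g n hg hn κ c δ hκ hc hδκ,
    fun hκ => Pool.Agent.TH4.HS.sharp hg hn hκ hc⟩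

end Pool.Agent.Results.MP_ca2859_nt.UniformPencils
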